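import Pool.Agent.H41.AV.Defs

set_option autoImplicit false

/-!
# Project AV of helper41: `S_PAIR` (helper99)
-/

namespace Pool.Agent.H99.AV

open Equiv Finset
open scoped Nat

theorem move {G : Type} [DecidableEq G] {b b' e e' : G} (hb : b ≠ b') (he : e ≠ e') :
    ∃ π : Perm G, π b = e ∧ π b' = e' := by
  refine ⟨swap (swap b e b') e' * swap b e, ?_, ?_⟩
  · rw [Perm.mul_apply, swap_apply_left]
    refine swap_apply_of_ne_of_ne ?_ he
    intro h
    have h1 : swap b e b = swap b e b' := by rw [swap_apply_left]; exact h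
    exact hb ((swap b e).injective h1)
  · rw [Perm.mul_apply, swap_apply_left]

theorem key (G : Type) [Fintype G] [DecidableEq G] {j j' : G} (h : j ≠ j') (b b' : G) :
    (univ.filter fun τ : Perm G => τ j = b ∧ τ j' = b').card *
      (Fintype.card G * (Fintype.card G - 1)) ≤ (Fintype.card G)! := by
  by_cases hb : b = b'
  · have h0 : (univ.filter fun τ : Perm G => τ j = b ∧ τ j' = b') = ∅ := by
      apply Finset.filter_eq_empty_iff.2
      rintro τ - ⟨h1, h2⟩
      apply h
      apply τ.injective
      rw [h1, h2, hb]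
    rw [h0, Finset.card_empty, zero_mul]
    exact Nat.zero_le _
  have hle : ∀ p ∈ (univ : Finset G).offDiag,
      (univ.filter fun τ : Perm G => τ j = b ∧ τ j' = b').card ≤
        (univ.filter fun τ : Perm G => (τ j, τ j') = p).card := by
    rintro ⟨e, e'⟩ hp
    have he : e ≠ e' := (Finset.mem_offDiag.1 hp).2.2
    obtain ⟨π, h1, h2⟩ := move hb he
    refine Finset.card_le_card_of_injOn (fun τ => π * τ) ?_ ?_
    · intro τ hτ
      have h3 := (Finset.mem_filter.1 (Finset.mem_coe.1 hτ)).2
      refine Finset.mem_coe.2 (Finset.mem_filter.2 ⟨Finset.mem_univ _, ?_⟩)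
      rw [Perm.mul_apply, Perm.mul_apply, h3.1, h3.2, h1, h2]
    · intro τ _ τ' _ hh
      exact mul_left_cancel hh
  have hsum : (univ : Finset (Perm G)).card =
      ∑ p ∈ (univ : Finset G).offDiag, (univ.filter fun τ : Perm G => (τ j, τ j') = p).card := by
    apply Finset.card_eq_sum_card_fiberwise
    intro τ _
    refine Finset.mem_coe.2 (Finset.mem_offDiag.2 ⟨Finset.mem_univ _, Finset.mem_univ _, ?_⟩)
    intro hh
    exact h (τ.injective hh)
  have h1 := Finset.sum_le_sum hle
  rw [← hsum, Finset.sum_const, Finset.offDiag_card, smul_eq_mul, Finset.card_univ,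
    Finset.card_univ, Fintype.card_perm] at h1
  have h2 : Fintype.card G * (Fintype.card G - 1) =
      Fintype.card G * Fintype.card G - Fintype.card G := Nat.mul_sub_one _ _
  rw [h2, mul_comm]
  exact h1

theorem pair : Pool.Agent.H41.AV.S_PAIR := by
  intro G _ _ _ i j i' j' y y' hne
  have hcard : (Fintype.card G)! ^ 2 = (univ : Finset (Perm G)).card * (Fintype.card G)! := by
    rw [Finset.card_univ, Fintype.card_perm, sq]
  rw [hcard]
  by_cases hj : j = j'
  · have hi : i ≠ i' := by
      intro hi
      exact hne (by rw [hi, hj])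
    have h1 : (univ.filter fun q : Perm G × Perm G =>
        q.2 j = q.1 i + y ∧ q.2 j' = q.1 i' + y').card =
        ∑ τ : Perm G, (univ.filter fun ρ : Perm G => ρ i = τ j - y ∧ ρ i' = τ j' - y').card := by
      simp only [Finset.card_filter]
      rw [Fintype.sum_prod_type_right]
      apply Finset.sum_congr rfl
      intro τ _
      apply Finset.sum_congr rfl
      intro ρ _
      have e : (τ j = ρ i + y ∧ τ j' = ρ i' + y') ↔ (ρ i = τ j - y ∧ ρ i' = τ j' - y') := by
        rw [eq_sub_iff_add_eq, eq_sub_iff_add_eq]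
        exact and_congr eq_comm eq_comm
      exact if_congr e rfl rfl
    rw [h1, Finset.sum_mul]
    refine (Finset.sum_le_sum fun τ _ => key G hi (τ j - y) (τ j' - y')).trans ?_
    rw [Finset.sum_const, smul_eq_mul]
  · have h1 : (univ.filter fun q : Perm G × Perm G =>
        q.2 j = q.1 i + y ∧ q.2 j' = q.1 i' + y').card =
        ∑ ρ : Perm G, (univ.filter fun τ : Perm G => τ j = ρ i + y ∧ τ j' = ρ i' + y').card := by
      simp only [Finset.card_filter]
      rw [Fintype.sum_prod_type]
    rw [h1, Finset.sum_mul]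
    refine (Finset.sum_le_sum fun ρ _ => key G hj (ρ i + y) (ρ i' + y')).trans ?_
    rw [Finset.sum_const, smul_eq_mul]

end Pool.Agent.H99.AV
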